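import Pool.Agent.H52.FT.Targets

/-!
# Module CNT
-/

namespace Pool.Agent.H19.FT

open Pool.Agent.H52.FT

theorem cnt : T_CNT := by
  intro α _ S w C hC ih hU hw z hz
  have h1 := ih (S.erase z) (Finset.erase_ssubset hz) w (hU.mono (Finset.erase_subset z S))
  have h2 : tot S w = w.count z + tot (S.erase z) w := (Finset.add_sum_erase S _ hz).symm
  have h3 : ((S.erase z).card : ℝ) = S.card - 1 := by
    rw [Finset.card_erase_of_mem hz]
    have : 1 ≤ S.card := Finset.card_pos.mpr ⟨z, hz⟩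
    push_cast [this]
    ring
  have h4 : ((S.erase z).card : ℝ) ^ ((4 : ℝ) / 3) ≤ (S.card : ℝ) ^ ((4 : ℝ) / 3) := by
    refine Real.rpow_le_rpow (Nat.cast_nonneg _) ?_ (by norm_num)
    rw [h3]
    linarith
  have h5 : (tot S w : ℝ) = w.count z + tot (S.erase z) w := by exact_mod_cast h2
  have h6 : C * ((S.erase z).card : ℝ) ^ ((4 : ℝ) / 3) ≤ C * (S.card : ℝ) ^ ((4 : ℝ) / 3) :=
    mul_le_mul_of_nonneg_left h4 hC
  rw [h3] at h1 h6
  nlinarith

end Pool.Agent.H19.FT
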